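import Pool.Agent.MP_c1891a_nt.H79.Spec

/-
The series of one coefficient of `log (1 + z S)` has small denominators, geometric growth and a
linear differential equation (the elimination argument of Lipshitz).
-/

namespace Pool.Agent.MP_c1891a_nt.H5

open Finset PowerSeries Pool.Agent.MP_c1891a_nt.H79

section Der

variable {G : Type} [AddCommGroup G]

/-- the derivation `single g a ↦ single (g - e) (a * φ g)`. -/
noncomputable def dA (φ : G →+ ℚ) (e : G) : AddMonoidAlgebra ℚ G →ₗ[ℚ] AddMonoidAlgebra ℚ G :=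
  (Finsupp.linearCombination ℚ fun g => AddMonoidAlgebra.single (g - e) (φ g)) ∘ₗ
    (AddMonoidAlgebra.coeffLinearEquiv ℚ).toLinearMap

variable (φ : G →+ ℚ) (e : G)

lemma dA_single (g : G) (a : ℚ) :
    dA φ e (AddMonoidAlgebra.single g a) = AddMonoidAlgebra.single (g - e) (a * φ g) := by
  simp [dA]

lemma dA_coeff (x : AddMonoidAlgebra ℚ G) (g : G) :
    (dA φ e x).coeff g = φ (g + e) * x.coeff (g + e) := by
  classical
  induction x using AddMonoidAlgebra.induction_linear with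
  | zero => simp
  | add x y hx hy => simp [hx, hy, mul_add]
  | single m a =>
    rw [dA_single]
    simp only [AddMonoidAlgebra.coeff_single, Finsupp.single_apply]
    by_cases h : m = g + e
    · subst h
      simp [mul_comm]
    · rw [if_neg h, if_neg fun h' => h (by rw [← h']; abel), mul_zero]

lemma dA_mul (x y : AddMonoidAlgebra ℚ G) : dA φ e (x * y) = dA φ e x * y + x * dA φ e y := by
  induction x using AddMonoidAlgebra.induction_linear with
  | zero => simp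
  | add x x' hx hx' => simp only [add_mul, map_add, hx, hx']; abel
  | single m a =>
    induction y using AddMonoidAlgebra.induction_linear with
    | zero => simp
    | add y y' hy hy' => simp only [mul_add, map_add, hy, hy']; abel
    | single n b =>
      simp only [AddMonoidAlgebra.single_mul_single, dA_single, map_add]
      rw [show m - e + n = m + n - e by abel, show m + (n - e) = m + n - e by abel,
        ← AddMonoidAlgebra.single_add]
      congr 1
      ring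

/-- the same derivation, applied to each coefficient of a series. -/
noncomputable def dB (f : (AddMonoidAlgebra ℚ G)⟦X⟧) : (AddMonoidAlgebra ℚ G)⟦X⟧ :=
  PowerSeries.mk fun n => dA φ e (coeff n f)

lemma dB_mul (x y : (AddMonoidAlgebra ℚ G)⟦X⟧) :
    dB φ e (x * y) = dB φ e x * y + x * dB φ e y := by
  refine PowerSeries.ext fun n => ?_
  simp only [dB, coeff_mk, map_add, coeff_mul, map_sum, dA_mul, sum_add_distrib]

/-- the series of the coefficients at `g`. -/
noncomputable def pr (g : G) : (AddMonoidAlgebra ℚ G)⟦X⟧ →ₗ[ℚ] ℚ⟦X⟧ where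
  toFun f := PowerSeries.mk fun n => (coeff n f).coeff g
  map_add' x y := by ext n; simp
  map_smul' a x := by ext n; simp

lemma coeff_pr (g : G) (f : (AddMonoidAlgebra ℚ G)⟦X⟧) (n : ℕ) :
    coeff n (pr g f) = (coeff n f).coeff g :=
  coeff_mk n fun n => (coeff n f).coeff g

lemma pr_dB (g : G) (f : (AddMonoidAlgebra ℚ G)⟦X⟧) :
    pr g (dB φ e f) = φ (g + e) • pr (g + e) f := by
  ext n
  simp [coeff_pr, dB, dA_coeff]

lemma pr_dB_iter (b : ℕ) (g : G) (f : (AddMonoidAlgebra ℚ G)⟦X⟧) :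
    pr g ((dB φ e)^[b] f) = (∏ t ∈ range b, φ (g + (t + 1) • e)) • pr (g + b • e) f := by
  induction b generalizing f with
  | zero => simp
  | succ b ih =>
    rw [Function.iterate_succ_apply, ih, pr_dB, prod_range_succ, mul_smul, succ_nsmul, add_assoc]

lemma pr_der (g : G) (f : (AddMonoidAlgebra ℚ G)⟦X⟧) :
    pr g (derivative (AddMonoidAlgebra ℚ G) f) = D (pr g f) := by
  ext n
  rw [D, coeff_pr, coeff_derivative, coeff_derivative, coeff_pr, ← Nat.cast_succ, ← Nat.cast_succ,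
    ← nsmul_eq_mul', ← nsmul_eq_mul']
  rfl

lemma pr_der_iter (a : ℕ) (g : G) (f : (AddMonoidAlgebra ℚ G)⟦X⟧) :
    pr g ((derivative (AddMonoidAlgebra ℚ G))^[a] f) = D^[a] (pr g f) :=
  Function.Semiconj.iterate_right (pr_der g) a f

lemma pr_X (g : G) (f : (AddMonoidAlgebra ℚ G)⟦X⟧) : pr g (X * f) = X * pr g f := by
  ext n
  cases n <;> simp [coeff_pr, coeff_succ_X_mul, coeff_zero_X_mul]

lemma pr_X_iter (l : ℕ) (g : G) (f : (AddMonoidAlgebra ℚ G)⟦X⟧) :
    pr g ((fun x => X * x)^[l] f) = X ^ l * pr g f := by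
  induction l with
  | zero => simp
  | succ l ih => rw [Function.iterate_succ_apply', pr_X, ih, pow_succ', mul_assoc]

lemma D_smul (a : ℕ) (c : ℚ) (f : ℚ⟦X⟧) : D^[a] (c • f) = c • D^[a] f := by
  induction a with
  | zero => rfl
  | succ a ih =>
    rw [Function.iterate_succ_apply', Function.iterate_succ_apply', ih, D, D, Derivation.map_smul]

lemma pow_der {B : Type} [CommRing B] {δ : B → B} (h : ∀ x y, δ (x * y) = δ x * y + x * δ y)
    (F f : B) (k : ℕ) : F ^ (k + 2) * δ f =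
      F * δ (F ^ (k + 1) * f) - (k + 1) • (δ F * (F ^ (k + 1) * f)) := by
  induction k with
  | zero => rw [zero_add, zero_add, pow_one, h, one_smul]; ring
  | succ k ih =>
    rw [show F ^ (k + 1 + 1) * f = F * (F ^ (k + 1) * f) by ring, h]
    simp only [nsmul_eq_mul] at ih ⊢
    push_cast at ih ⊢
    linear_combination F * ih

end Der

section Box

variable {Γ : Type} [AddCommGroup Γ]

/-- the size of an exponent. -/
def nu (g : ℤ × ℤ × Γ) : ℕ := g.1.natAbs + g.2.1.natAbs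

/-- polynomials in a box. -/
def W (ρ k : ℕ) (f : (AddMonoidAlgebra ℚ (ℤ × ℤ × Γ))⟦X⟧) : Prop :=
  ∀ n g, (coeff n f).coeff g ≠ 0 → n ≤ k ∧ nu g ≤ k * ρ

variable {ρ k l : ℕ} {f f' F : (AddMonoidAlgebra ℚ (ℤ × ℤ × Γ))⟦X⟧}

lemma W.mono (h : W ρ k f) (e : k ≤ l) : W ρ l f := fun n g a =>
  ⟨(h n g a).1.trans e, (h n g a).2.trans (Nat.mul_le_mul_right _ e)⟩

lemma W.sub (h : W ρ k f) (h' : W ρ k f') : W ρ k (f - f') := fun n g a => by
  by_cases e : (coeff n f).coeff g = 0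
  · exact h' n g fun e' => a (by simp [e, e'])
  · exact h n g e

lemma W.nsmul (h : W ρ k f) (m : ℕ) : W ρ k (m • f) := fun n g a =>
  h n g fun e => a (by rw [map_nsmul, AddMonoidAlgebra.coeff_smul_apply, e, smul_zero])

lemma W.mul (h : W ρ k f) (h' : W ρ l f') : W ρ (k + l) (f * f') := fun n g a => by
  classical
  rw [coeff_mul, AddMonoidAlgebra.coeff_sum, Finsupp.finsetSum_apply] at a
  obtain ⟨p, hp, e⟩ := exists_ne_zero_of_sum_ne_zero a
  obtain ⟨u, hu, v, hv, rfl⟩ := mem_add.1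
    (AddMonoidAlgebra.support_coeff_mul_subset _ _ (Finsupp.mem_support_iff.2 e))
  have h1 := h _ _ (Finsupp.mem_support_iff.1 hu)
  have h2 := h' _ _ (Finsupp.mem_support_iff.1 hv)
  have h3 := mem_antidiagonal.1 hp
  rw [add_mul]
  simp only [nu, Prod.fst_add, Prod.snd_add] at h1 h2 ⊢
  omega

lemma W.der (h : W ρ k f) : W ρ (k + 1) (derivative _ f) := fun n g a => by
  rw [← coeff_pr, pr_der, D, coeff_derivative, coeff_pr] at a
  have := h _ _ (left_ne_zero_of_mul a)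
  rw [add_mul]
  omega

lemma W.dB (hρ : 1 ≤ ρ) (φ : ℤ × ℤ × Γ →+ ℚ) {e : ℤ × ℤ × Γ} (he : nu e ≤ 1) (h : W ρ k f) :
    W ρ (k + 1) (dB φ e f) := fun n g a => by
  rw [H5.dB, coeff_mk, dA_coeff] at a
  have := h _ _ (right_ne_zero_of_mul a)
  rw [add_mul]
  simp only [nu, Prod.fst_add, Prod.snd_add] at this he ⊢
  omega

lemma W.C {x : AddMonoidAlgebra ℚ (ℤ × ℤ × Γ)} (h : ∀ g, x.coeff g ≠ 0 → nu g ≤ ρ) :
    W ρ 1 (C x) := fun n g a => by
  rw [coeff_C] at a
  split_ifs at a with e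
  · exact ⟨by omega, by simpa using h g a⟩
  · simp at a

lemma W.X : W ρ 1 (X : (AddMonoidAlgebra ℚ (ℤ × ℤ × Γ))⟦X⟧) := fun n g a => by
  classical
  rw [coeff_X] at a
  split_ifs at a with e
  · rw [AddMonoidAlgebra.one_def, AddMonoidAlgebra.coeff_single, Finsupp.single_apply] at a
    split_ifs at a with e'
    · subst e'
      exact ⟨e.le, by simp [nu]⟩
    · simp at a
  · simp at a

/-- fractions with denominator a power of `F`. -/
def V (ρ : ℕ) (F : (AddMonoidAlgebra ℚ (ℤ × ℤ × Γ))⟦X⟧) (k : ℕ)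
    (f : (AddMonoidAlgebra ℚ (ℤ × ℤ × Γ))⟦X⟧) : Prop := W ρ (2 * k + 1) (F ^ (k + 1) * f)

lemma V.der (hF : W ρ 1 F) {δ : _ → (AddMonoidAlgebra ℚ (ℤ × ℤ × Γ))⟦X⟧}
    (h : ∀ x y, δ (x * y) = δ x * y + x * δ y) (h' : ∀ k x, W ρ k x → W ρ (k + 1) (δ x)) (k) (f)
    (a : V ρ F k f) : V ρ F (k + 1) (δ f) := by
  rw [V, pow_der h]
  exact ((hF.mul (h' _ _ a)).mono (by omega)).sub ((((h' _ _ hF).mul a).mono (by omega)).nsmul _)

lemma V.X (hF : W ρ 1 F) (k) (f) (a : V ρ F k f) : V ρ F (k + 1) (X * f) := by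
  rw [V, show F ^ (k + 1 + 1) * (PowerSeries.X * f) = F * PowerSeries.X * (F ^ (k + 1) * f) by ring]
  exact ((hF.mul W.X).mul a).mono (by omega)

lemma V.iter {δ : _ → (AddMonoidAlgebra ℚ (ℤ × ℤ × Γ))⟦X⟧}
    (h : ∀ k f, V ρ F k f → V ρ F (k + 1) (δ f)) (n : ℕ) (a : V ρ F k f) :
    V ρ F (k + n) (δ^[n] f) := by
  induction n with
  | zero => exact a
  | succ n ih => rw [Function.iterate_succ_apply']; exact h _ _ ih

lemma V.mono (hF : W ρ 1 F) (a : V ρ F k f) (e : k ≤ l) : V ρ F l f := by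
  induction e with
  | refl => exact a
  | step _ ih =>
    rw [V, pow_succ', mul_assoc]
    exact (hF.mul ih).mono (by omega)

lemma rel [Fintype Γ] (hF : IsUnit F) {I : Type} [Fintype I]
    {e : I → (AddMonoidAlgebra ℚ (ℤ × ℤ × Γ))⟦X⟧} (h : ∀ i, V ρ F k (e i))
    (hI : (2 * k + 2) * ((2 * ((2 * k + 1) * ρ) + 1) * ((2 * ((2 * k + 1) * ρ) + 1) *
      Fintype.card Γ)) < Fintype.card I) : ∃ p : I → ℚ, ∑ i, p i • e i = 0 ∧ ∃ i, p i ≠ 0 := by
  classical
  set m : ℕ := (2 * k + 1) * ρ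
  let box : Finset (ℕ × ℤ × ℤ × Γ) :=
    range (2 * k + 2) ×ˢ Icc (-(m : ℤ)) m ×ˢ Icc (-(m : ℤ)) m ×ˢ univ
  have hb : box.card = (2 * k + 2) * ((2 * m + 1) * ((2 * m + 1) * Fintype.card Γ)) := by
    have : (Icc (-(m : ℤ)) m).card = 2 * m + 1 := by rw [Int.card_Icc]; omega
    simp only [box, card_product, card_range, this, card_univ]
  have : ¬LinearIndependent ℚ fun i (x : box) => (coeff x.1.1 (F ^ (k + 1) * e i)).coeff x.1.2 :=
    fun a => by
      have := a.fintype_card_le_finrank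
      rw [Module.finrank_fintype_fun_eq_card, Fintype.card_coe] at this
      omega
  obtain ⟨p, hp, h0⟩ := Fintype.not_linearIndependent_iff.1 this
  refine ⟨p, (hF.pow (k + 1)).mul_right_eq_zero.1 ?_, h0⟩
  refine PowerSeries.ext fun n => AddMonoidAlgebra.coeff_injective (Finsupp.ext fun g => ?_)
  simp only [mul_sum, mul_smul_comm]
  rw [← coeff_pr, map_sum, map_sum]
  simp only [map_smul, coeff_pr, smul_eq_mul]
  by_cases a : (n, g) ∈ box
  · simpa using congrFun hp ⟨_, a⟩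
  · refine sum_eq_zero fun i _ => mul_eq_zero_of_right _ (by_contra fun b => a ?_)
    have := h i n g b
    simp only [box, mem_product, mem_range, mem_Icc, mem_univ, and_true, nu] at this ⊢
    omega

end Box

lemma df_of {f : ℚ⟦X⟧} (J : ℕ) (a : ℕ → Polynomial ℚ) (h0 : ∃ i < J, a i ≠ 0)
    (h : ∑ i ∈ range J, (a i : ℚ⟦X⟧) * D^[i] f = 0) : DF f := by
  induction J with
  | zero => simp at h0
  | succ J ih =>
    by_cases e : a J = 0
    · obtain ⟨i, h1, h2⟩ := h0
      refine ih ⟨i, lt_of_le_of_ne (by omega) fun b => h2 (b ▸ e), h2⟩ ?_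
      simpa [sum_range_succ, e] using h
    · exact ⟨J, a, 0, e, by simpa using h⟩

lemma df_D {f : ℚ⟦X⟧} {J : ℕ} (q : Fin J × Fin J → ℚ) (h0 : ∃ x, q x ≠ 0)
    (h : ∑ x, q x • (X ^ (x.1 : ℕ) * D^[x.2] (D f)) = 0) : DF f := by
  let a : ℕ → Polynomial ℚ := fun i => Nat.casesOn i 0 fun i =>
    if h : i < J then ∑ l : Fin J, Polynomial.monomial l (q (l, ⟨i, h⟩)) else 0
  have ha : ∀ i : Fin J, a (i + 1) = ∑ l : Fin J, Polynomial.monomial l (q (l, i)) :=
    fun i => dif_pos i.2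
  refine df_of (J + 1) a ?_ ?_
  · obtain ⟨⟨l, i⟩, h0⟩ := h0
    refine ⟨i + 1, by omega, fun e => h0 ?_⟩
    have := congrArg (Polynomial.coeff · l) ((ha i).symm.trans e)
    simpa [Polynomial.finsetSum_coeff, Polynomial.coeff_monomial, Fin.val_inj] using this
  · rw [sum_range_succ', sum_range, ← h, Fintype.sum_prod_type_right]
    have : a 0 = 0 := rfl
    rw [this, Polynomial.coe_zero, zero_mul, add_zero]
    refine sum_congr rfl fun i _ => ?_
    rw [ha, ← Polynomial.coeToPowerSeries.ringHom_apply, map_sum, sum_mul]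
    refine sum_congr rfl fun l _ => ?_
    rw [Polynomial.coeToPowerSeries.ringHom_apply, ← Polynomial.C_mul_X_pow_eq_monomial,
      Polynomial.coe_mul, Polynomial.coe_C, Polynomial.coe_pow, Polynomial.coe_X, smul_eq_C_mul,
      mul_assoc, Function.iterate_succ_apply]

section Main

variable {Γ : Type} [AddCommGroup Γ]

/-- the first coordinate. -/
def φ₁ : ℤ × ℤ × Γ →+ ℚ := (Int.castAddHom ℚ).comp (AddMonoidHom.fst _ _)

/-- the second coordinate. -/
def φ₂ : ℤ × ℤ × Γ →+ ℚ :=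
  (Int.castAddHom ℚ).comp ((AddMonoidHom.fst _ _).comp (AddMonoidHom.snd _ _))

lemma φ₁_apply (g : ℤ × ℤ × Γ) : φ₁ g = (g.1 : ℚ) := rfl

lemma φ₂_apply (g : ℤ × ℤ × Γ) : φ₂ g = (g.2.1 : ℚ) := rfl

lemma elim [Fintype Γ] {ρ : ℕ} {F f : (AddMonoidAlgebra ℚ (ℤ × ℤ × Γ))⟦X⟧} (hρ : 1 ≤ ρ)
    (hF : W ρ 1 F) (hU : IsUnit F) (hf : V ρ F 0 f) (γ : Γ) {h : ℚ⟦X⟧}
    (hh : pr (-1, -1, γ) f = D h) : DF h := by
  classical
  obtain ⟨J, hJ⟩ : ∃ J, 3610 * ρ ^ 2 * Fintype.card Γ < J := ⟨_, Nat.lt_succ_self _⟩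
  let e : (Fin J × Fin J) × Fin J × Fin J → (AddMonoidAlgebra ℚ (ℤ × ℤ × Γ))⟦X⟧ := fun i =>
    (fun x => X * x)^[i.1.1] ((derivative _)^[i.1.2]
      ((dB φ₁ (1, 0, 0))^[i.2.1] ((dB φ₂ (0, 1, 0))^[i.2.2] f)))
  have he : ∀ i, V ρ F (4 * J) (e i) := fun i =>
    (V.iter (V.X hF) _ (V.iter (V.der hF (fun x y => by
      rw [Derivation.leibniz, smul_eq_mul, smul_eq_mul]; ring) fun _ _ => W.der) _
      (V.iter (V.der hF (dB_mul _ _) fun _ _ => W.dB hρ _ (by simp [nu])) _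
      (V.iter (V.der hF (dB_mul _ _) fun _ _ => W.dB hρ _ (by simp [nu])) _ hf)))).mono hF
      (by omega)
  obtain ⟨p, hp, h0⟩ := rel hU he (by
    have h1 : 0 < J := by omega
    have h2 : 2 * ((2 * (4 * J) + 1) * ρ) + 1 ≤ 19 * (J * ρ) := by
      have : ρ ≤ J * ρ := Nat.le_mul_of_pos_left _ h1
      nlinarith
    simp only [Fintype.card_prod, Fintype.card_fin]
    calc _ ≤ 10 * J * (19 * (J * ρ) * (19 * (J * ρ) * Fintype.card Γ)) := by
          gcongr
          omega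
      _ = J ^ 3 * (3610 * ρ ^ 2 * Fintype.card Γ) := by ring
      _ < J ^ 3 * J := by gcongr
      _ = _ := by ring)
  obtain ⟨⟨x₀, b₀, c₀⟩, h1, h2⟩ := exists_min_image (univ.filter fun i => p i ≠ 0)
    (fun i => (i.2.1 : ℕ) + i.2.2) (h0.imp fun i hi => by simpa using hi)
  simp only [mem_filter, mem_univ, true_and] at h1 h2
  let g : ℤ × ℤ × Γ := (-1 - b₀, -1 - c₀, γ)
  let κ : ℕ → ℚ := fun b => ∏ t ∈ range b, φ₁ (g + (t + 1) • (1, 0, 0))
  let κ' : ℕ → ℕ → ℚ := fun b c => ∏ t ∈ range c, φ₂ (g + b • (1, 0, 0) + (t + 1) • (0, 1, 0))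
  have k1 : ∀ t : ℕ, φ₁ (g + (t + 1) • (1, 0, 0)) = t - b₀ := fun t => by
    simp [φ₁_apply, g]
    ring
  have k2 : ∀ b t : ℕ, φ₂ (g + b • (1, 0, 0) + (t + 1) • (0, 1, 0)) = t - c₀ := fun b t => by
    simp [φ₂_apply, g]
    ring
  have key : ∀ i, pr g (e i) = (κ i.2.1 * κ' i.2.1 i.2.2) • (X ^ (i.1.1 : ℕ) * D^[i.1.2]
      (pr (g + (i.2.1 : ℕ) • (1, 0, 0) + (i.2.2 : ℕ) • (0, 1, 0)) f)) := fun i => by
    simp only [e]
    rw [pr_X_iter, pr_der_iter, pr_dB_iter, pr_dB_iter, smul_smul, D_smul, mul_smul_comm]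
  refine df_D (fun x => p (x, b₀, c₀) * (κ b₀ * κ' b₀ c₀)) ⟨x₀, mul_ne_zero h1 (mul_ne_zero
    (prod_ne_zero_iff.2 fun t ht => ?_) (prod_ne_zero_iff.2 fun t ht => ?_))⟩ ?_
  · rw [k1, sub_ne_zero]
    exact_mod_cast (mem_range.1 ht).ne
  · rw [k2, sub_ne_zero]
    exact_mod_cast (mem_range.1 ht).ne
  have := congrArg (pr g) hp
  rw [map_sum, map_zero, Fintype.sum_prod_type] at this
  rw [← this]
  refine sum_congr rfl fun x _ => ?_
  rw [sum_eq_single (b₀, c₀) _ (by simp), map_smul, key, smul_smul, ← hh]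
  · congr 5
    simp [g]
  · rintro ⟨b, c⟩ - hne
    rw [map_smul, key, smul_smul]
    by_cases a : p (x, b, c) = 0
    · rw [a, zero_mul, zero_smul]
    have h3 := h2 _ a
    have h4 : (b₀ : ℕ) < b ∨ (c₀ : ℕ) < c := by
      by_contra h5
      exact hne (Prod.ext (Fin.ext (by dsimp only at h3 ⊢; omega))
        (Fin.ext (by dsimp only at h3 ⊢; omega)))
    have : κ b * κ' b c = 0 := h4.elim
      (fun h => mul_eq_zero_of_left (prod_eq_zero (mem_range.2 h) (by rw [k1, sub_self])) _)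
      fun h => mul_eq_zero_of_right _ (prod_eq_zero (mem_range.2 h) (by rw [k2, sub_self]))
    rw [this, mul_zero, zero_smul]

lemma df_lg [Fintype Γ] (S : AddMonoidAlgebra ℤ (ℤ × ℤ × Γ)) (γ : Γ) : DF (lg S (0, 0, γ)) := by
  classical
  set T := AddMonoidAlgebra.mapRingHom (ℤ × ℤ × Γ) (Int.castRingHom ℚ) S with hT
  have hR : ∀ g, T.coeff g ≠ 0 → nu g ≤ T.coeff.support.sup nu := fun g h =>
    le_sup (f := nu) (Finsupp.mem_support_iff.2 h)
  have hU : (1 - X * C (-T)) * PowerSeries.mk (fun n => (-T) ^ n) = 1 := by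
    rw [sub_mul, one_mul, mul_assoc]
    refine PowerSeries.ext fun n => ?_
    cases n with
    | zero => simp
    | succ n => simp [coeff_succ_X_mul, coeff_one, pow_succ']
  refine elim (ρ := T.coeff.support.sup nu + 2) (F := 1 - X * C (-T))
    (f := C (AddMonoidAlgebra.single (-1, -1, 0) 1 * T) * PowerSeries.mk fun n => (-T) ^ n)
    (by omega) (W.sub ?_ fun n g a => ?_) (IsUnit.of_mul_eq_one _ hU) ?_ γ ?_
  · rw [← map_one C]
    refine W.C fun g a => ?_
    rw [AddMonoidAlgebra.one_def, AddMonoidAlgebra.coeff_single, Finsupp.single_apply] at a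
    split_ifs at a with e'
    · subst e'
      simp [nu]
    · simp at a
  · cases n with
    | zero => simp at a
    | succ n =>
      rw [coeff_succ_X_mul, coeff_C] at a
      split_ifs at a with e
      · have := hR g (by simpa using a)
        omega
      · simp at a
  · rw [V, zero_add, pow_one, mul_left_comm, hU, mul_one]
    refine W.C fun g a => ?_
    rw [AddMonoidAlgebra.coeff_single_mul_apply, one_mul] at a
    have := hR _ a
    simp only [nu, Prod.fst_add, Prod.snd_add, Prod.fst_neg, Prod.snd_neg] at this ⊢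
    omega
  · ext n
    rw [coeff_pr, coeff_C_mul, coeff_mk, mul_assoc, AddMonoidAlgebra.coeff_single_mul_apply,
      one_mul, D, coeff_derivative, lg, coeff_mk, neg_pow, mul_left_comm, ← pow_succ', hT,
      ← map_pow]
    have h1 : (n : ℚ) + 1 ≠ 0 := by positivity
    have h2 : -((-1, -1, 0) : ℤ × ℤ × Γ) + (-1, -1, γ) = (0, 0, γ) := by simp
    rw [h2, pow_succ (-1 : ℚ), pow_succ (-1 : ℚ), Nat.cast_succ, div_mul_cancel₀ _ h1]
    rcases Nat.even_or_odd n with h | h <;> rw [h.neg_one_pow, h.neg_one_pow] <;>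
      simp [-map_pow, AddMonoidAlgebra.coeff_mapRingHom]

lemma abs_coeff_pow {G : Type} [AddCommGroup G] (S : AddMonoidAlgebra ℤ G) (n : ℕ) (g : G) :
    |(S ^ n).coeff g| ≤ (∑ x ∈ S.coeff.support, |S.coeff x|) ^ n := by
  classical
  induction n generalizing g with
  | zero =>
    rw [pow_zero, pow_zero, AddMonoidAlgebra.one_def, AddMonoidAlgebra.coeff_single,
      Finsupp.single_apply]
    split_ifs <;> simp
  | succ n ih =>
    rw [pow_succ', AddMonoidAlgebra.coeff_mul_apply_left, Finsupp.sum, pow_succ', sum_mul]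
    refine (abs_sum_le_sum_abs _ _).trans (sum_le_sum fun x _ => ?_)
    rw [abs_mul]
    exact mul_le_mul_of_nonneg_left (ih _) (abs_nonneg _)

lemma den_lg {G : Type} [AddCommGroup G] (S : AddMonoidAlgebra ℤ G) (g : G) : Den (lg S g) := by
  intro n
  rw [lg, coeff_mk]
  rcases n.eq_zero_or_pos with rfl | h
  · exact ⟨0, by simp⟩
  · obtain ⟨m, hm⟩ : n ∣ Nat.lcmUpto n := dvd_lcm (f := id) (mem_Icc.2 ⟨h, le_rfl⟩)
    refine ⟨m * ((-1) ^ (n + 1) * (S ^ n).coeff g), ?_⟩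
    have : (n : ℚ) ≠ 0 := by positivity
    rw [hm]
    push_cast
    field_simp

lemma gro_lg {G : Type} [AddCommGroup G] (S : AddMonoidAlgebra ℤ G) (g : G) : Gro (lg S g) := by
  obtain ⟨L, hL⟩ := Int.eq_ofNat_of_zero_le
    (sum_nonneg fun x _ => abs_nonneg (S.coeff x) : 0 ≤ ∑ x ∈ S.coeff.support, |S.coeff x|)
  refine ⟨L + 1, fun n => ?_⟩
  rw [lg, coeff_mk]
  rcases n.eq_zero_or_pos with rfl | h
  · simp only [Nat.cast_zero, div_zero, abs_zero]
    positivity
  · have h1 := abs_coeff_pow S n g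
    rw [hL] at h1
    have h2 : |((S ^ n).coeff g : ℚ)| ≤ (L : ℚ) ^ n := by exact_mod_cast h1
    rw [abs_div, abs_mul, abs_pow, abs_neg, abs_one, one_pow, one_mul, Nat.abs_cast]
    calc _ ≤ |((S ^ n).coeff g : ℚ)| := div_le_self (abs_nonneg _) (by exact_mod_cast h)
      _ ≤ (L : ℚ) ^ n := h2
      _ ≤ ((L + 1 : ℕ) : ℚ) ^ n := by gcongr; omega
      _ ≤ _ := pow_le_pow_right₀ (by exact_mod_cast Nat.le_add_left 1 L) n.le_succ

end Main

theorem df : SDf := fun Γ _ _ S γ =>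
  letI := Fintype.ofFinite Γ
  ⟨den_lg S _, gro_lg S _, df_lg S γ⟩

end Pool.Agent.MP_c1891a_nt.H5
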